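import Mathlib

/-!
# The local-global property of strong Maltsev conditions of height 1: definitions
-/

namespace Q29.LG

universe u v

/-- An algebra: a nonempty universe and a family of finitary basic operations. -/
structure Alg where
  /-- the universe -/
  carrier : Type u
  /-- the universe is not empty -/
  nonempty : Nonempty carrier
  /-- the index set of the basic operations -/
  I : Type v
  /-- the arities of the basic operations -/
  ar : I → ℕ
  /-- the basic operations -/
  op : (i : I) → (Fin (ar i) → carrier) → carrier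

/-- The `n`-ary term operations of an algebra: the compositions of basic operations and
projections. -/
inductive Alg.IsTerm (A : Alg.{u, v}) (n : ℕ) : ((Fin n → A.carrier) → A.carrier) → Prop
  | proj (i : Fin n) : Alg.IsTerm A n (fun x => x i)
  | comp (i : A.I) (t : Fin (A.ar i) → (Fin n → A.carrier) → A.carrier)
      (h : ∀ j, Alg.IsTerm A n (t j)) : Alg.IsTerm A n (fun x => A.op i (fun j => t j x))

/-- An algebra is idempotent if `f (x, ..., x) = x` for all basic operations `f` and all `x`. -/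
def Alg.IsIdempotent (A : Alg.{u, v}) : Prop := ∀ (i : A.I) (x : A.carrier), A.op i (fun _ => x) = x

/-- A strong Maltsev condition of height 1: finitely many variables `x_i` (`i : Fin n`), finitely
many function symbols `d_j` (`j : Fin m`) of arity `ar j`, and finitely many equations
`d_j (x_{σ(1)}, ..., x_{σ(l)}) ≈ d_{j'} (x_{σ'(1)}, ..., x_{σ'(l')})`; the pair `⟨j, σ⟩` is the side
`d_j (x_{σ(1)}, ..., x_{σ(l)})` of an equation. -/
structure HeightOne where
  /-- the number of variables -/
  n : ℕ
  /-- the number of function symbols -/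
  m : ℕ
  /-- the arities of the function symbols -/
  ar : Fin m → ℕ
  /-- the equations -/
  eqs : List ((Σ j : Fin m, Fin (ar j) → Fin n) × (Σ j : Fin m, Fin (ar j) → Fin n))

/-- The algebra `A` satisfies the condition `S` on the set `F` of `n`-tuples. -/
def Alg.SatisfiesOn (A : Alg.{u, v}) (S : HeightOne) (F : Set (Fin S.n → A.carrier)) : Prop :=
  ∃ d : (j : Fin S.m) → (Fin (S.ar j) → A.carrier) → A.carrier,
    (∀ j, A.IsTerm (S.ar j) (d j)) ∧
      ∀ e ∈ S.eqs, ∀ x ∈ F,
        d e.1.1 (fun i => x (e.1.2 i)) = d e.2.1 (fun i => x (e.2.2 i))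

/-- The `k`-local-global property of the condition `S` for the class `K` of algebras. -/
def HasKLGP (k : ℕ) (S : HeightOne) (K : Alg.{u, v} → Prop) : Prop :=
  ∀ A : Alg.{u, v}, K A → (k : Cardinal) ≤ Cardinal.mk (Fin S.n → A.carrier) →
    (∀ F : Finset (Fin S.n → A.carrier), F.card = k → A.SatisfiesOn S F) →
      ∀ F : Finset (Fin S.n → A.carrier), A.SatisfiesOn S F

/-- The local-global property of the condition `S` for the class `K` of algebras. -/
def HasLGP (S : HeightOne) (K : Alg.{u, v} → Prop) : Prop := ∃ k : ℕ, 1 ≤ k ∧ HasKLGP k S K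

/-- The sides `p(a,b,c)` (for `j = 0`) and `q(a,b,c)` (for `j = 1`) of the equations of `HM`. -/
abbrev side (j a b c : Fin 2) : Σ _ : Fin 2, Fin 3 → Fin 2 := ⟨j, ![a, b, c]⟩

/-- The condition `p(x,y,y) ≈ p(x,x,x)`, `p(x,x,y) ≈ q(x,y,y)`, `q(x,x,y) ≈ q(y,y,y)`. -/
def HM : HeightOne where
  n := 2
  m := 2
  ar := fun _ => 3
  eqs := [(side 0 0 1 1, side 0 0 0 0), (side 0 0 0 1, side 1 0 1 1), (side 1 0 0 1, side 1 1 1 1)]

theorem key {A : Type u} (x : Fin 2 → A) (a b c : Fin 2) :
    (fun i : Fin 3 => x ((![a, b, c] : Fin 3 → Fin 2) i)) = ![x a, x b, x c] := by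
  funext i
  fin_cases i <;> rfl

theorem satisfiesOn_HM (A : Alg.{u, v}) (F : Set (Fin 2 → A.carrier)) :
    A.SatisfiesOn HM F ↔ ∃ p q : (Fin 3 → A.carrier) → A.carrier, A.IsTerm 3 p ∧ A.IsTerm 3 q ∧
      ∀ x ∈ F, p ![x 0, x 1, x 1] = p ![x 0, x 0, x 0] ∧ p ![x 0, x 0, x 1] = q ![x 0, x 1, x 1] ∧
        q ![x 0, x 0, x 1] = q ![x 1, x 1, x 1] := by
  constructor
  · rintro ⟨d, hd, h⟩
    refine ⟨d (0 : Fin 2), d (1 : Fin 2), hd (0 : Fin 2), hd (1 : Fin 2), fun x hx => ?_⟩
    have h1 := h (side 0 0 1 1, side 0 0 0 0) List.mem_cons_self x hx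
    have h2 := h (side 0 0 0 1, side 1 0 1 1) (List.mem_cons_of_mem _ List.mem_cons_self) x hx
    have h3 := h (side 1 0 0 1, side 1 1 1 1)
      (List.mem_cons_of_mem _ (List.mem_cons_of_mem _ List.mem_cons_self)) x hx
    repeat rw [← key]
    exact ⟨h1, h2, h3⟩
  · rintro ⟨p, q, hp, hq, h⟩
    let d : Fin 2 → (Fin 3 → A.carrier) → A.carrier := fun j => if j = 0 then p else q
    have hd : ∀ j, A.IsTerm 3 (d j) := by
      intro j
      change A.IsTerm 3 (if j = 0 then p else q)
      split_ifs
      · exact hp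
      · exact hq
    have H : ∀ x : Fin 2 → A.carrier, x ∈ F →
        p (fun i => x ((![0, 1, 1] : Fin 3 → Fin 2) i)) =
          p (fun i => x ((![0, 0, 0] : Fin 3 → Fin 2) i)) ∧
        p (fun i => x ((![0, 0, 1] : Fin 3 → Fin 2) i)) =
          q (fun i => x ((![0, 1, 1] : Fin 3 → Fin 2) i)) ∧
        q (fun i => x ((![0, 0, 1] : Fin 3 → Fin 2) i)) =
          q (fun i => x ((![1, 1, 1] : Fin 3 → Fin 2) i)) := by
      intro x hx
      simp only [key]
      exact h x hx
    refine ⟨d, hd, ?_⟩
    intro e he x hx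
    obtain ⟨h1, h2, h3⟩ := H x hx
    rcases List.mem_cons.1 he with rfl | he
    · exact h1
    rcases List.mem_cons.1 he with rfl | he
    · exact h2
    rcases List.mem_cons.1 he with rfl | he
    · exact h3
    · exact absurd he List.not_mem_nil

end Q29.LG
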