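import Pool.Agent.Q29.LG.Defs

/-!
# The condition `HM` does not have the local-global property
-/

namespace Q29.LG

universe u v

/-- The universe of the algebras: formal terms. -/
inductive T : Type u
  | gen (i : ℕ) (b : Bool) : T
  | app (s : Bool) (e : ℕ) (a b c : T) : T

namespace T

/-- An injection into `ℕ`. -/
def enc : T.{u} → ℕ
  | gen i b => 2 * Nat.pair i (if b then 1 else 0)
  | app s e a b c => 2 * Nat.pair (if s then 1 else 0) (Nat.pair e (Nat.pair a.enc
      (Nat.pair b.enc c.enc))) + 1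

theorem enc_injective : Function.Injective enc.{u} := by
  intro t
  induction t with
  | gen i b =>
    intro t' h
    cases t' with
    | gen i' b' =>
      simp only [enc] at h
      have h' : Nat.pair i (if b then 1 else 0) = Nat.pair i' (if b' then 1 else 0) := by omega
      rw [Nat.pair_eq_pair] at h'
      obtain ⟨rfl, h2⟩ := h'
      cases b <;> cases b' <;> simp_all
    | app s' e' a' b' c' =>
      simp only [enc] at h
      omega
  | app s e a b c iha ihb ihc =>
    intro t' h
    cases t' with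
    | gen i' b' =>
      simp only [enc] at h
      omega
    | app s' e' a' b' c' =>
      simp only [enc] at h
      have h' : Nat.pair (if s then 1 else 0) (Nat.pair e (Nat.pair a.enc
        (Nat.pair b.enc c.enc))) = Nat.pair (if s' then 1 else 0) (Nat.pair e' (Nat.pair a'.enc
        (Nat.pair b'.enc c'.enc))) := by omega
      rw [Nat.pair_eq_pair, Nat.pair_eq_pair, Nat.pair_eq_pair, Nat.pair_eq_pair] at h'
      obtain ⟨h1, rfl, h2, h3, h4⟩ := h'
      rw [iha h2, ihb h3, ihc h4]
      cases s <;> cases s' <;> simp_all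

instance : Countable T.{u} := enc_injective.countable

instance : Infinite T.{u} :=
  Infinite.of_injective (fun i : ℕ => gen i true) (fun i j h => by injection h)

/-- The index of the leftmost generator. -/
def idx : T.{u} → ℕ
  | gen i _ => i
  | app _ _ a _ _ => a.idx

/-- The first entry. -/
def fst : T.{u} → T.{u}
  | gen i b => gen i b
  | app _ _ a _ _ => a

/-- The third entry. -/
def thd : T.{u} → T.{u}
  | gen i b => gen i b
  | app _ _ _ _ c => c

/-- The code of the outer operation. -/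
def code : T.{u} → Option ℕ
  | gen _ _ => none
  | app _ e _ _ _ => some e

/-- The type of the outer operation. -/
def tag : T.{u} → Bool
  | gen _ _ => true
  | app s _ _ _ _ => s

end T

open Classical in
theorem exists_enum (k : ℕ) : ∃ f : ℕ → Finset (T.{u} × T.{u}), (∀ e, (f e).card ≤ k) ∧
    ∀ F : Finset (T.{u} × T.{u}), F.card ≤ k → ∃ e, f e = F := by
  have : Nonempty {F : Finset (T.{u} × T.{u}) // F.card ≤ k} := ⟨⟨∅, by simp⟩⟩
  obtain ⟨f, hf⟩ := exists_surjective_nat {F : Finset (T.{u} × T.{u}) // F.card ≤ k}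
  refine ⟨fun e => (f e).1, fun e => (f e).2, fun F hF => ?_⟩
  obtain ⟨e, he⟩ := hf ⟨F, hF⟩
  exact ⟨e, by change (f e).1 = F; rw [he]⟩

/-- An enumeration of the sets of at most `k` pairs. -/
noncomputable def Fs (k : ℕ) : ℕ → Finset (T.{u} × T.{u}) := (exists_enum k).choose

theorem card_Fs (k e : ℕ) : (Fs.{u} k e).card ≤ k := (exists_enum k).choose_spec.1 e

theorem exists_Fs {k : ℕ} {F : Finset (T.{u} × T.{u})} (hF : F.card ≤ k) : ∃ e, Fs k e = F :=
  (exists_enum k).choose_spec.2 F hF

open Classical in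
/-- The operations `p_e`. -/
noncomputable def P (k e : ℕ) (a b c : T.{u}) : T.{u} :=
  if b = c ∧ (a, b) ∈ Fs k e then T.app true e a a a else T.app true e a b c

open Classical in
/-- The operations `q_e`. -/
noncomputable def Q (k e : ℕ) (a b c : T.{u}) : T.{u} :=
  if b = c ∧ (a, b) ∈ Fs k e then T.app true e a a b
  else if a = b ∧ (a, c) ∈ Fs k e then
    (if (c, c) ∈ Fs k e then T.app true e c c c else T.app false e c c c)
  else T.app false e a b c

theorem P_e0 {k e : ℕ} {x y : T.{u}} (h : (x, y) ∈ Fs k e) : P k e x y y = P k e x x x := by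
  unfold P
  rw [if_pos ⟨rfl, h⟩]
  split_ifs <;> rfl

theorem PQ_e1 {k e : ℕ} {x y : T.{u}} (h : (x, y) ∈ Fs k e) : P k e x x y = Q k e x y y := by
  unfold P Q
  rw [if_pos (⟨rfl, h⟩ : y = y ∧ (x, y) ∈ Fs k e)]
  split_ifs with h1
  · rw [h1.1]
  · rfl

theorem Q_e2 {k e : ℕ} {x y : T.{u}} (h : (x, y) ∈ Fs k e) : Q k e x x y = Q k e y y y := by
  unfold Q
  by_cases hxy : x = y
  · subst hxy
    rfl
  · rw [if_neg (fun h' => hxy h'.1), if_pos ⟨rfl, h⟩]
    by_cases hy : (y, y) ∈ Fs k e
    · rw [if_pos hy, if_pos ⟨rfl, hy⟩]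
    · rw [if_neg hy, if_neg (fun h' => hy h'.2), if_neg (fun h' => hy h'.2)]

theorem fst_P (k e : ℕ) (a b c : T.{u}) : (P k e a b c).fst = a := by
  unfold P
  split_ifs <;> rfl

theorem thd_Q (k e : ℕ) (a b c : T.{u}) : (Q k e a b c).thd = c := by
  unfold Q
  split_ifs with h1 h2
  · exact h1.1
  · rfl
  · rfl
  · rfl

theorem code_P (k e : ℕ) (a b c : T.{u}) : (P k e a b c).code = some e := by
  unfold P
  split_ifs <;> rfl

theorem code_Q (k e : ℕ) (a b c : T.{u}) : (Q k e a b c).code = some e := by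
  unfold Q
  split_ifs <;> rfl

theorem tag_P (k e : ℕ) (a b c : T.{u}) : (P k e a b c).tag = true := by
  unfold P
  split_ifs <;> rfl

theorem idx_P (k e : ℕ) (a b c : T.{u}) : (P k e a b c).idx = a.idx := by
  unfold P
  split_ifs <;> rfl

theorem idx_Q (k e : ℕ) (a b c : T.{u}) (h : a.idx = c.idx) : (Q k e a b c).idx = a.idx := by
  unfold Q
  split_ifs
  · rfl
  · exact h.symm
  · exact h.symm
  · rfl

theorem tag_Q (k e : ℕ) (a b c : T.{u}) (h : ∀ z ∈ Fs.{u} k e, z.1.idx ≠ a.idx) :
    (Q k e a b c).tag = false := by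
  unfold Q
  rw [if_neg (fun h' => h (a, b) h'.2 rfl), if_neg (fun h' => h (a, c) h'.2 rfl)]
  rfl

/-- The algebra `A_k`. -/
noncomputable def Ak (k : ℕ) : Alg.{u, v} where
  carrier := T.{u}
  nonempty := ⟨T.gen 0 true⟩
  I := ULift.{v} (Bool × ℕ)
  ar := fun _ => 3
  op := fun i x => if i.down.1 = true then P k i.down.2 (x 0) (x 1) (x 2)
    else Q k i.down.2 (x 0) (x 1) (x 2)

theorem isTerm_P (k e : ℕ) : (Ak.{u, v} k).IsTerm 3
    (fun x : Fin 3 → T.{u} => P k e (x 0) (x 1) (x 2)) :=
  Alg.IsTerm.comp (A := Ak.{u, v} k) (n := 3) (⟨(true, e)⟩ : ULift.{v} (Bool × ℕ))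
    (fun (j : Fin 3) (x : Fin 3 → T.{u}) => x j) (fun j => Alg.IsTerm.proj j)

theorem isTerm_Q (k e : ℕ) : (Ak.{u, v} k).IsTerm 3
    (fun x : Fin 3 → T.{u} => Q k e (x 0) (x 1) (x 2)) :=
  Alg.IsTerm.comp (A := Ak.{u, v} k) (n := 3) (⟨(false, e)⟩ : ULift.{v} (Bool × ℕ))
    (fun (j : Fin 3) (x : Fin 3 → T.{u}) => x j) (fun j => Alg.IsTerm.proj j)

theorem idx_term {k : ℕ} {n : ℕ}
    {t : (Fin n → (Ak.{u, v} k).carrier) → (Ak.{u, v} k).carrier} (ht : (Ak.{u, v} k).IsTerm n t)
    (i : ℕ) (x : Fin n → (Ak.{u, v} k).carrier) (hx : ∀ j, T.idx (x j) = i) :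
    T.idx (t x) = i := by
  induction ht with
  | proj j => exact hx j
  | comp s t h ih =>
    change T.idx (if s.down.1 = true then P k s.down.2 (t (0 : Fin 3) x) (t (1 : Fin 3) x)
      (t (2 : Fin 3) x) else Q k s.down.2 (t (0 : Fin 3) x) (t (1 : Fin 3) x)
      (t (2 : Fin 3) x)) = i
    have h0 : T.idx (t (0 : Fin 3) x) = i := ih (0 : Fin 3)
    have h2 : T.idx (t (2 : Fin 3) x) = i := ih (2 : Fin 3)
    split_ifs
    · exact (idx_P _ _ _ _ _).trans h0
    · exact (idx_Q _ _ _ _ _ (h0.trans h2.symm)).trans h0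

/-- The three equations at the pair `gen i true, gen i false` for the `n`-ary terms `p`, `q`. -/
def Eqs (k : ℕ) (p q : (Fin 3 → (Ak.{u, v} k).carrier) → (Ak.{u, v} k).carrier) (i : ℕ) : Prop :=
  p ![T.gen i true, T.gen i false, T.gen i false] =
      p ![T.gen i true, T.gen i true, T.gen i true] ∧
    p ![T.gen i true, T.gen i true, T.gen i false] =
      q ![T.gen i true, T.gen i false, T.gen i false] ∧
    q ![T.gen i true, T.gen i true, T.gen i false] =
      q ![T.gen i false, T.gen i false, T.gen i false]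

theorem code_op (k : ℕ) (s : (Ak.{u, v} k).I) (x : Fin 3 → (Ak.{u, v} k).carrier) :
    T.code ((Ak.{u, v} k).op s x) = some s.down.2 := by
  change T.code (if s.down.1 = true then P k s.down.2 (x 0) (x 1) (x 2)
    else Q k s.down.2 (x 0) (x 1) (x 2)) = _
  split_ifs
  · exact code_P _ _ _ _ _
  · exact code_Q _ _ _ _ _

theorem exists_free (k e : ℕ) : ∃ i, i ≤ k ∧ ∀ z ∈ Fs.{u} k e, z.1.idx ≠ i := by
  classical
  by_contra hcon
  push Not at hcon
  have h1 : Finset.range (k + 1) ⊆ (Fs.{u} k e).image fun z => z.1.idx := by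
    intro i hi
    obtain ⟨z, hz, hzi⟩ := hcon i (by rw [Finset.mem_range] at hi; omega)
    exact Finset.mem_image.2 ⟨z, hz, hzi⟩
  have h2 := (Finset.card_le_card h1).trans Finset.card_image_le
  rw [Finset.card_range] at h2
  have h3 := card_Fs.{u} k e
  omega

theorem tag_ne {k e : ℕ} {i : ℕ} (hi : ∀ z ∈ Fs.{u} k e, z.1.idx ≠ i) {a b c a' b' c' : T.{u}}
    (ha : a'.idx = i) (h : P k e a b c = Q k e a' b' c') : False := by
  have h1 := tag_P k e a b c
  rw [h, tag_Q k e a' b' c' (by rw [ha]; exact hi)] at h1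
  cases h1

theorem no_terms (k : ℕ) (p : (Fin 3 → (Ak.{u, v} k).carrier) → (Ak.{u, v} k).carrier)
    (hp : (Ak.{u, v} k).IsTerm 3 p) :
    ∀ q : (Fin 3 → (Ak.{u, v} k).carrier) → (Ak.{u, v} k).carrier, (Ak.{u, v} k).IsTerm 3 q →
      ¬ ∀ i, i ≤ k → Eqs k p q i := by
  induction hp with
  | proj j =>
    intro q hq h
    obtain ⟨h0, h1, h2⟩ := h 0 (Nat.zero_le _)
    have hj : j = 0 := by
      fin_cases j
      · rfl
      · exact absurd h0 (by intro h; injection h; contradiction)
      · exact absurd h0 (by intro h; injection h; contradiction)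
    subst hj
    cases hq with
    | proj j' =>
      fin_cases j'
      · exact absurd h2 (by intro h; injection h; contradiction)
      · exact absurd h1 (by intro h; injection h; contradiction)
      · exact absurd h1 (by intro h; injection h; contradiction)
    | comp s t ht =>
      have h3 := code_op k s (fun j => t j ![T.gen 0 true, T.gen 0 false, T.gen 0 false])
      have h4 : (none : Option ℕ) = some s.down.2 := (congrArg T.code h1).trans h3
      cases h4
  | comp s t ht ih =>
    intro q hq h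
    cases hq with
    | proj j' =>
      obtain ⟨h0, h1, h2⟩ := h 0 (Nat.zero_le _)
      have h3 := code_op k s (fun j => t j ![T.gen 0 true, T.gen 0 true, T.gen 0 false])
      have h4 := h3.symm.trans (congrArg T.code h1)
      fin_cases j' <;>
      · have h5 : some s.down.2 = (none : Option ℕ) := h4
        cases h5
    | comp s' t' ht' =>
      have hcode : s.down.2 = s'.down.2 := by
        obtain ⟨h0, h1, h2⟩ := h 0 (Nat.zero_le _)
        have h3 := code_op k s (fun j => t j ![T.gen 0 true, T.gen 0 true, T.gen 0 false])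
        have h4 := code_op k s' (fun j => t' j ![T.gen 0 true, T.gen 0 false, T.gen 0 false])
        have h5 := h3.symm.trans ((congrArg T.code h1).trans h4)
        injection h5
      obtain ⟨⟨s, e⟩⟩ := s
      obtain ⟨⟨s', e'⟩⟩ := s'
      change e = e' at hcode
      subst hcode
      obtain ⟨i, hi, hfree⟩ := exists_free.{u} k e
      cases s <;> cases s'
      · -- both `q`
        refine ih (2 : Fin 3) (t' (2 : Fin 3)) (ht' (2 : Fin 3)) (fun i hi => ?_)
        obtain ⟨h0, h1, h2⟩ := h i hi
        have g0 := congrArg T.thd h0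
        have g1 := congrArg T.thd h1
        have g2 := congrArg T.thd h2
        exact ⟨(thd_Q k e _ _ _).symm.trans (g0.trans (thd_Q k e _ _ _)),
          (thd_Q k e _ _ _).symm.trans (g1.trans (thd_Q k e _ _ _)),
          (thd_Q k e _ _ _).symm.trans (g2.trans (thd_Q k e _ _ _))⟩
      · -- `q`, `p`
        obtain ⟨h0, h1, h2⟩ := h i hi
        refine tag_ne (k := k) (e := e) hfree (a' := t (0 : Fin 3) ![T.gen i true, T.gen i true, T.gen i false]) ?_ h1.symm
        refine idx_term (ht (0 : Fin 3)) i _ ?_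
        intro j
        fin_cases j <;> rfl
      · -- `p`, `q`
        obtain ⟨h0, h1, h2⟩ := h i hi
        refine tag_ne (k := k) (e := e) hfree (a' := t' (0 : Fin 3) ![T.gen i true, T.gen i false, T.gen i false]) ?_ h1
        refine idx_term (ht' (0 : Fin 3)) i _ ?_
        intro j
        fin_cases j <;> rfl
      · -- both `p`
        refine ih (0 : Fin 3) (t' (0 : Fin 3)) (ht' (0 : Fin 3)) (fun i hi => ?_)
        obtain ⟨h0, h1, h2⟩ := h i hi
        have g0 := congrArg T.fst h0
        have g1 := congrArg T.fst h1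
        have g2 := congrArg T.fst h2
        exact ⟨(fst_P k e _ _ _).symm.trans (g0.trans (fst_P k e _ _ _)),
          (fst_P k e _ _ _).symm.trans (g1.trans (fst_P k e _ _ _)),
          (fst_P k e _ _ _).symm.trans (g2.trans (fst_P k e _ _ _))⟩

/-- The condition `HM` does not have the local-global property. -/
theorem not_hasLGP : ¬ HasLGP HM (fun _ : Alg.{u, v} => True) := by
  classical
  rintro ⟨k, -, hk⟩
  have hinf : Infinite (Fin 2 → T.{u}) := by
    refine Infinite.of_injective (fun (i : ℕ) (_ : Fin 2) => T.gen i true) (fun i j h => ?_)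
    have := congrFun h 0
    injection this
  have hcard : (k : Cardinal) ≤ Cardinal.mk (Fin HM.n → (Ak.{u, v} k).carrier) := by
    change (k : Cardinal) ≤ Cardinal.mk (Fin 2 → T.{u})
    exact (Cardinal.natCast_lt_aleph0 (n := k)).le.trans (Cardinal.aleph0_le_mk _)
  have hloc : ∀ F : Finset (Fin HM.n → (Ak.{u, v} k).carrier), F.card = k →
      (Ak.{u, v} k).SatisfiesOn HM F := by
    intro F hF
    set F' : Finset (T.{u} × T.{u}) :=
      Finset.image (fun x : Fin 2 → T.{u} => (x 0, x 1)) F with hF'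
    have hF'c : F'.card ≤ k := by
      rw [← hF]
      exact Finset.card_image_le
    obtain ⟨e, he⟩ := exists_Fs hF'c
    refine (satisfiesOn_HM _ _).2 ⟨_, _, isTerm_P k e, isTerm_Q k e, fun x hx => ?_⟩
    have hx' : ((x 0, x 1) : T.{u} × T.{u}) ∈ Fs k e := by
      rw [he]
      exact Finset.mem_image_of_mem (fun x : Fin 2 → T.{u} => (x 0, x 1)) hx
    exact ⟨P_e0 hx', PQ_e1 hx', Q_e2 hx'⟩
  obtain ⟨p, q, hp, hq, h⟩ := (satisfiesOn_HM _ _).1 (hk (Ak.{u, v} k) trivial hcard hloc
    ((Finset.range (k + 1)).image fun i : ℕ => (![T.gen i true, T.gen i false] : Fin 2 → T.{u})))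
  refine no_terms k p hp q hq (fun i hi => ?_)
  have hmem : (![T.gen i true, T.gen i false] : Fin 2 → T.{u}) ∈
      (((Finset.range (k + 1)).image fun i : ℕ => (![T.gen i true, T.gen i false] : Fin 2 → T.{u}) :
        Finset (Fin 2 → T.{u})) : Set (Fin 2 → T.{u})) := by
    rw [Finset.mem_coe]
    exact Finset.mem_image_of_mem _ (Finset.mem_range.2 (by omega))
  exact h _ hmem

end Q29.LG
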