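import Pool.Agent.Q29.LG.Defs

/-!
# The condition `HM` has the local-global property for idempotent algebras
-/

namespace Q29.LG

universe u v

variable {A : Alg.{u, v}}

theorem Alg.IsTerm.subst {m n : ℕ} {t : (Fin m → A.carrier) → A.carrier} (ht : A.IsTerm m t)
    {s : Fin m → (Fin n → A.carrier) → A.carrier} (hs : ∀ j, A.IsTerm n (s j)) :
    A.IsTerm n (fun x => t (fun j => s j x)) := by
  induction ht with
  | proj i => exact hs i
  | comp i t h ih => exact Alg.IsTerm.comp i (fun j x => t j (fun j => s j x)) ih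

theorem Alg.IsTerm.comp3 {n : ℕ} {t : (Fin 3 → A.carrier) → A.carrier} (ht : A.IsTerm 3 t)
    {s1 s2 s3 : (Fin n → A.carrier) → A.carrier} (h1 : A.IsTerm n s1) (h2 : A.IsTerm n s2)
    (h3 : A.IsTerm n s3) : A.IsTerm n (fun x => t ![s1 x, s2 x, s3 x]) := by
  have h := ht.subst (s := ![s1, s2, s3]) (n := n) (by
    intro j
    fin_cases j
    · exact h1
    · exact h2
    · exact h3)
  have e : (fun x => t (fun j => (![s1, s2, s3] : Fin 3 → (Fin n → A.carrier) → A.carrier) j x)) =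
      fun x => t ![s1 x, s2 x, s3 x] := by
    funext x
    congr 1
    funext j
    fin_cases j <;> rfl
  rw [← e]
  exact h

theorem Alg.IsTerm.idem (hA : A.IsIdempotent) {n : ℕ} {t : (Fin n → A.carrier) → A.carrier}
    (ht : A.IsTerm n t) (a : A.carrier) : t (fun _ => a) = a := by
  induction ht with
  | proj i => rfl
  | comp i t h ih =>
    change A.op i (fun j => t j (fun _ => a)) = a
    simp only [ih]
    exact hA i a

theorem Alg.IsTerm.idem3 (hA : A.IsIdempotent) {t : (Fin 3 → A.carrier) → A.carrier}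
    (ht : A.IsTerm 3 t) (a : A.carrier) : t ![a, a, a] = a := by
  have h := ht.idem hA a
  have e : (![a, a, a] : Fin 3 → A.carrier) = fun _ => a := by
    funext j
    fin_cases j <;> rfl
  rw [e]
  exact h

/-- The pair `p, q` of ternary term operations satisfies the three equations on `S0`, `S1`,
`S2`. -/
structure Good (p q : (Fin 3 → A.carrier) → A.carrier) (S0 S1 S2 : Set (A.carrier × A.carrier)) :
    Prop where
  hp : A.IsTerm 3 p
  hq : A.IsTerm 3 q
  h0 : ∀ z ∈ S0, p ![z.1, z.2, z.2] = z.1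
  h1 : ∀ z ∈ S1, p ![z.1, z.1, z.2] = q ![z.1, z.2, z.2]
  h2 : ∀ z ∈ S2, q ![z.1, z.1, z.2] = z.2

theorem Good.mono {p q : (Fin 3 → A.carrier) → A.carrier} {S0 S1 S2 T0 T1 T2 : Set (A.carrier × A.carrier)}
    (h : Good p q T0 T1 T2) (h0 : S0 ⊆ T0) (h1 : S1 ⊆ T1) (h2 : S2 ⊆ T2) : Good p q S0 S1 S2 :=
  ⟨h.hp, h.hq, fun z hz => h.h0 z (h0 hz), fun z hz => h.h1 z (h1 hz), fun z hz => h.h2 z (h2 hz)⟩

open Classical in
theorem stepA (hA : A.IsIdempotent)
    (hloc : ∀ α β γ : A.carrier × A.carrier, ∃ p q : (Fin 3 → A.carrier) → A.carrier,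
      Good p q {α, β, γ} {α, β, γ} {α, β, γ}) (α β : A.carrier × A.carrier)
    (S : Finset (A.carrier × A.carrier)) :
    ∃ p q : (Fin 3 → A.carrier) → A.carrier,
      Good p q {α} (insert α (insert β (S : Set (A.carrier × A.carrier)))) {β} := by
  induction S using Finset.induction_on with
  | empty =>
    obtain ⟨p, q, h⟩ := hloc α β β
    exact ⟨p, q, h.mono (by simp) (by simp) (by simp)⟩
  | insert c S hc ih =>
    obtain ⟨p, q, h⟩ := ih
    obtain ⟨a, b⟩ := c
    set x := α.1 with hx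
    set y := α.2 with hy
    set x' := β.1 with hx'
    set y' := β.2 with hy'
    set w := p ![x, x, y] with hw
    set w' := p ![x', x', y'] with hw'
    set u := p ![a, a, b] with hu
    set v := q ![a, b, b] with hv
    obtain ⟨q1, q2, g⟩ := hloc (x, w) (u, v) (w', y')
    have hP : A.IsTerm 3 (fun X => q1 ![p ![X 0, X 1, X 2], p ![X 0, X 0, X 2], q ![X 0, X 2, X 2]]) :=
      g.hp.comp3 (h.hp.comp3 (.proj 0) (.proj 1) (.proj 2)) (h.hp.comp3 (.proj 0) (.proj 0) (.proj 2))
        (h.hq.comp3 (.proj 0) (.proj 2) (.proj 2))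
    have hQ : A.IsTerm 3 (fun X => q2 ![p ![X 0, X 0, X 2], q ![X 0, X 2, X 2], q ![X 0, X 1, X 2]]) :=
      g.hq.comp3 (h.hp.comp3 (.proj 0) (.proj 0) (.proj 2)) (h.hq.comp3 (.proj 0) (.proj 2) (.proj 2))
        (h.hq.comp3 (.proj 0) (.proj 1) (.proj 2))
    refine ⟨_, _, hP, hQ, ?_, ?_, ?_⟩
    · intro z hz
      rw [Set.mem_singleton_iff] at hz
      subst hz
      change q1 ![p ![z.1, z.2, z.2], p ![z.1, z.1, z.2], q ![z.1, z.2, z.2]] = z.1
      rw [h.h0 z (by simp), ← h.h1 z (by simp)]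
      exact g.h0 (x, w) (by simp)
    · intro z hz
      change q1 ![p ![z.1, z.1, z.2], p ![z.1, z.1, z.2], q ![z.1, z.2, z.2]] =
        q2 ![p ![z.1, z.1, z.2], q ![z.1, z.2, z.2], q ![z.1, z.2, z.2]]
      have hz' : z = (a, b) ∨ z ∈ insert α (insert β (S : Set (A.carrier × A.carrier))) := by
        rcases hz with hz | hz | hz
        · exact Or.inr (Or.inl hz)
        · exact Or.inr (Or.inr (Or.inl hz))
        · rw [Finset.mem_coe, Finset.mem_insert] at hz
          rcases hz with hz | hz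
          · exact Or.inl hz
          · exact Or.inr (Or.inr (Or.inr hz))
      rcases hz' with hz | hz
      · subst hz
        exact g.h1 (u, v) (by simp)
      · rw [← h.h1 z hz, g.hp.idem3 hA, g.hq.idem3 hA]
    · intro z hz
      rw [Set.mem_singleton_iff] at hz
      subst hz
      change q2 ![p ![z.1, z.1, z.2], q ![z.1, z.2, z.2], q ![z.1, z.1, z.2]] = z.2
      rw [h.h2 z (by simp), ← h.h1 z (by simp)]
      exact g.h2 (w', y') (by simp)

open Classical in
theorem stepB (hA : A.IsIdempotent)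
    (hloc : ∀ α β γ : A.carrier × A.carrier, ∃ p q : (Fin 3 → A.carrier) → A.carrier,
      Good p q {α, β, γ} {α, β, γ} {α, β, γ}) (β : A.carrier × A.carrier)
    (S0 : Finset (A.carrier × A.carrier)) :
    ∀ S1 : Finset (A.carrier × A.carrier), ∃ p q : (Fin 3 → A.carrier) → A.carrier,
      Good p q S0 S1 {β} := by
  induction S0 using Finset.induction_on with
  | empty =>
    intro S1
    obtain ⟨p, q, h⟩ := stepA hA hloc β β S1
    exact ⟨p, q, h.mono (by simp) (fun z hz => Or.inr (Or.inr hz)) subset_rfl⟩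
  | insert c S hc ih =>
    intro S1
    obtain ⟨p, q, h⟩ := ih S1
    obtain ⟨a, b⟩ := c
    set c := p ![a, b, b] with hc
    obtain ⟨q1, q2, g⟩ := stepA hA hloc (a, c) β (S1.image fun z => (z.1, p ![z.1, z.1, z.2]))
    have hP : A.IsTerm 3 (fun X => q1 ![X 0, p ![X 0, X 1, X 1], p ![X 0, X 1, X 2]]) :=
      g.hp.comp3 (.proj 0) (h.hp.comp3 (.proj 0) (.proj 1) (.proj 1))
        (h.hp.comp3 (.proj 0) (.proj 1) (.proj 2))
    have hQ : A.IsTerm 3 (fun X => q2 ![X 0, q ![X 0, X 1, X 1], q ![X 0, X 1, X 2]]) :=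
      g.hq.comp3 (.proj 0) (h.hq.comp3 (.proj 0) (.proj 1) (.proj 1))
        (h.hq.comp3 (.proj 0) (.proj 1) (.proj 2))
    refine ⟨_, _, hP, hQ, ?_, ?_, ?_⟩
    · intro z hz
      change q1 ![z.1, p ![z.1, z.2, z.2], p ![z.1, z.2, z.2]] = z.1
      rw [Finset.mem_coe, Finset.mem_insert] at hz
      rcases hz with hz | hz
      · subst hz
        exact g.h0 (a, c) (by simp)
      · rw [h.h0 z hz, g.hp.idem3 hA]
    · intro z hz
      change q1 ![z.1, p ![z.1, z.1, z.1], p ![z.1, z.1, z.2]] =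
        q2 ![z.1, q ![z.1, z.2, z.2], q ![z.1, z.2, z.2]]
      rw [h.hp.idem3 hA, ← h.h1 z hz]
      refine g.h1 (z.1, p ![z.1, z.1, z.2]) (Or.inr (Or.inr ?_))
      rw [Finset.mem_coe]
      exact Finset.mem_image_of_mem _ hz
    · intro z hz
      change q2 ![z.1, q ![z.1, z.1, z.1], q ![z.1, z.1, z.2]] = z.2
      rw [h.hq.idem3 hA, h.h2 z hz]
      exact g.h2 z hz

open Classical in
theorem stepC (hA : A.IsIdempotent)
    (hloc : ∀ α β γ : A.carrier × A.carrier, ∃ p q : (Fin 3 → A.carrier) → A.carrier,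
      Good p q {α, β, γ} {α, β, γ} {α, β, γ})
    (S2 : Finset (A.carrier × A.carrier)) :
    ∀ S0 S1 : Finset (A.carrier × A.carrier), ∃ p q : (Fin 3 → A.carrier) → A.carrier,
      Good p q S0 S1 S2 := by
  induction S2 using Finset.induction_on with
  | empty =>
    intro S0 S1
    obtain ⟨a⟩ := A.nonempty
    obtain ⟨p, q, h⟩ := stepB hA hloc (a, a) S0 S1
    exact ⟨p, q, h.mono subset_rfl subset_rfl (by simp)⟩
  | insert c S hc ih =>
    intro S0 S1
    obtain ⟨p, q, h⟩ := ih S0 S1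
    obtain ⟨a, b⟩ := c
    set c := q ![a, a, b] with hc
    obtain ⟨q1, q2, g⟩ := stepB hA hloc (c, b) S0 (S1.image fun z => (p ![z.1, z.1, z.2], z.2))
    have hP : A.IsTerm 3 (fun X => q1 ![p ![X 0, X 1, X 2], p ![X 1, X 1, X 2], X 2]) :=
      g.hp.comp3 (h.hp.comp3 (.proj 0) (.proj 1) (.proj 2))
        (h.hp.comp3 (.proj 1) (.proj 1) (.proj 2)) (.proj 2)
    have hQ : A.IsTerm 3 (fun X => q2 ![q ![X 0, X 1, X 2], q ![X 1, X 1, X 2], X 2]) :=
      g.hq.comp3 (h.hq.comp3 (.proj 0) (.proj 1) (.proj 2))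
        (h.hq.comp3 (.proj 1) (.proj 1) (.proj 2)) (.proj 2)
    refine ⟨_, _, hP, hQ, ?_, ?_, ?_⟩
    · intro z hz
      change q1 ![p ![z.1, z.2, z.2], p ![z.2, z.2, z.2], z.2] = z.1
      rw [h.hp.idem3 hA, h.h0 z hz]
      exact g.h0 z hz
    · intro z hz
      change q1 ![p ![z.1, z.1, z.2], p ![z.1, z.1, z.2], z.2] =
        q2 ![q ![z.1, z.2, z.2], q ![z.2, z.2, z.2], z.2]
      rw [h.hq.idem3 hA, ← h.h1 z hz]
      refine g.h1 (p ![z.1, z.1, z.2], z.2) ?_
      rw [Finset.mem_coe]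
      exact Finset.mem_image_of_mem _ hz
    · intro z hz
      change q2 ![q ![z.1, z.1, z.2], q ![z.1, z.1, z.2], z.2] = z.2
      rw [Finset.mem_coe, Finset.mem_insert] at hz
      rcases hz with hz | hz
      · subst hz
        exact g.h2 (c, b) (by simp)
      · rw [h.h2 z hz, g.hq.idem3 hA]

theorem exists_superset {α : Type u} {s : Finset α} {k : ℕ} (hs : s.card ≤ k)
    (h : (k : Cardinal) ≤ Cardinal.mk α) : ∃ t : Finset α, s ⊆ t ∧ t.card = k := by
  rcases finite_or_infinite α with hf | hi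
  · have := Fintype.ofFinite α
    rw [Cardinal.mk_fintype, Nat.cast_le] at h
    obtain ⟨t, h1, h2⟩ := Finset.exists_superset_card_eq hs h
    exact ⟨t, h1, h2⟩
  · exact Infinite.exists_superset_card_eq s k hs

open Classical in
/-- The condition `HM` has the local-global property for idempotent algebras. -/
theorem hasLGP_idempotent : HasLGP HM Alg.IsIdempotent.{u, v} := by
  refine ⟨3, by norm_num, fun A hA hk hloc F => ?_⟩
  have hloc' : ∀ α β γ : A.carrier × A.carrier, ∃ p q : (Fin 3 → A.carrier) → A.carrier,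
      Good p q {α, β, γ} {α, β, γ} {α, β, γ} := by
    intro α β γ
    have hc : ({![α.1, α.2], ![β.1, β.2], ![γ.1, γ.2]} : Finset (Fin 2 → A.carrier)).card ≤ 3 :=
      Finset.card_le_three
    obtain ⟨t, ht, htc⟩ := exists_superset hc hk
    obtain ⟨p, q, hp, hq, h⟩ := (satisfiesOn_HM A _).1 (hloc t htc)
    have hmem : ∀ z ∈ ({α, β, γ} : Set (A.carrier × A.carrier)),
        (![z.1, z.2] : Fin 2 → A.carrier) ∈ (t : Set (Fin 2 → A.carrier)) := by
      intro z hz
      apply ht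
      rcases hz with hz | hz | hz
      · subst hz; simp
      · subst hz; simp
      · rw [Set.mem_singleton_iff] at hz
        subst hz; simp
    refine ⟨p, q, hp, hq, fun z hz => ?_, fun z hz => ?_, fun z hz => ?_⟩
    · have h' := (h _ (hmem z hz)).1
      exact h'.trans (hp.idem3 hA z.1)
    · exact (h _ (hmem z hz)).2.1
    · have h' := (h _ (hmem z hz)).2.2
      exact h'.trans (hq.idem3 hA z.2)
  set F' : Finset (A.carrier × A.carrier) := F.image fun x : Fin 2 → A.carrier => (x 0, x 1) with hF'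
  obtain ⟨p, q, h⟩ := stepC hA hloc' F' F' F'
  refine (satisfiesOn_HM A _).2 ⟨p, q, h.hp, h.hq, fun x hx => ?_⟩
  have hx' : (x 0, x 1) ∈ (F' : Set (A.carrier × A.carrier)) := by
    rw [Finset.mem_coe]
    exact Finset.mem_image_of_mem (fun x : Fin 2 → A.carrier => (x 0, x 1)) hx
  refine ⟨?_, h.h1 _ hx', ?_⟩
  · rw [h.hp.idem3 hA]
    exact h.h0 _ hx'
  · rw [h.hq.idem3 hA]
    exact h.h2 _ hx'

end Q29.LG
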